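import Pool.Agent.Helper47.BK.One
import Pool.Agent.Helper47.CK.GenCodes

/-!
The kernels of large cubes.
-/

set_option autoImplicit false

open Finset Filter

namespace Pool.Agent.Helper47.BK

open Pool.Agent.Helper47.CK

/-- kernel with all parameters -/
theorem kernel_gen (n k T L : ℕ) {ρ A lam : ℝ} (hρ : 0 < ρ) (hL : 1 ≤ L)
    (hJK : 2 * (k + 1) ≤ T + 1 - L) (hLT : L ≤ T) (hTn : T + 2 * (k + 1) ≤ n) (hA : 0 < A)
    (h1 : A ≤ ((n : ℝ) - 2 * (k + 1 : ℕ) - T) * ρ)
    (h2 : A * ρ ≤ (T : ℝ) + 1 - L - 2 * (k + 1 : ℕ))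
    (hlam : lam = 2 * A * (1 - 1 / L)) :
    ∃ (g : (Fin n → Bool) → (Fin n → Bool) → ℝ) (Tt D : ℝ),
      Cls (fun u v : Fin n → Bool => (n : ℝ) - 2 * (hammingDist u v : ℝ)) g lam Tt n D ∧
      Tt * (n.choose (k + 1) : ℝ) ≤
        2 * (∑ j ∈ Finset.Icc (2 * (k + 1)) T, (n.choose j : ℝ)) * D := by
  set J : ℕ := T + 1 - L with hJ
  have hLR : (1 : ℝ) ≤ L := by exact_mod_cast hL
  have hJR : (J : ℝ) = T + 1 - L := by
    have : J + L = T + 1 := by omega
    have h : (J : ℝ) + L = T + 1 := by exact_mod_cast this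
    linarith
  have heig : ∀ j ∈ Icc (2 * (k + 1)) T, lam * tv ρ J T j ≤
      ((n : ℝ) - 2 * (k + 1 : ℕ) - j) * tv ρ J T (j + 1)
        + ((j : ℝ) - 2 * (k + 1 : ℕ)) * tv ρ J T (j - 1) := by
    intro j hj
    refine tv_eig hρ (A := A) (by omega) (by omega) (by omega) h1 ?_ ?_ ?_ j hj
    · rw [hJR]
      exact h2
    · rw [hJR, hlam]
      apply le_of_eq
      field_simp
      ring
    · rw [hlam]
      have : 0 ≤ 1 / (L : ℝ) := by positivity
      nlinarith
  -- the binomial difference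
  have h3 : n.choose k * 2 ≤ n.choose (k + 1) := by
    have h1 := Nat.choose_succ_right_eq n k
    have h2 : n.choose k * (2 * (k + 1)) ≤ n.choose (k + 1) * (k + 1) := by
      rw [h1]
      apply Nat.mul_le_mul_left
      omega
    apply Nat.le_of_mul_le_mul_right (c := k + 1) _ (Nat.succ_pos k)
    linarith
  have hch0 : 0 < n.choose (k + 1) := Nat.choose_pos (by omega)
  obtain ⟨g, Tt, D, hcls, hT⟩ := cube_kernel n k T (tv ρ J T)
    (fun j => tv_nonneg hρ J T j)
    (fun j hj => by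
      unfold tv
      rw [if_neg]
      rintro ⟨h1, h2⟩
      apply hj
      rw [mem_Icc]
      omega)
    ⟨T, by rw [mem_Icc]; omega, by
      unfold tv
      rw [if_pos (by omega)]
      have : 0 < ρ ^ T := by positivity
      rw [hJR]
      apply mul_pos this
      nlinarith⟩ (by omega) (by omega) lam heig
  refine ⟨g, Tt, D, hcls, ?_⟩
  have h4 : (n.choose k : ℝ) * 2 ≤ n.choose (k + 1) := by exact_mod_cast h3
  have hTt : 0 ≤ Tt := by
    have := hcls.nonneg (fun _ => true) (fun _ => true)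
    rwa [hcls.diag] at this
  have h5 := mul_le_mul_of_nonneg_left h4 hTt
  linarith

/-- **kernels of large cubes** -/
theorem kernel_asy {δ ν τ κ : ℝ} (hδ : δ < 1 / 2) (hν : 0 < ν) (hντ : 2 * ν < τ)
    (hτ : τ ≤ 1 / 2) (hcond : (1 / 2 - δ) ^ 2 < (τ - 2 * ν) * (1 - τ - 2 * ν))
    (hκ : Real.binEntropy τ - Real.binEntropy ν < κ * Real.log 2) :
    ∃ s₁ : ℝ, 1 - 2 * δ < s₁ ∧ ∀ᶠ n : ℕ in atTop,
      ∃ (g : (Fin n → Bool) → (Fin n → Bool) → ℝ) (Tt D : ℝ),
        Cls (fun u v : Fin n → Bool => (n : ℝ) - 2 * (hammingDist u v : ℝ)) g (s₁ * n) Tt n D ∧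
        Tt ≤ 2 ^ (κ * n) * D := by
  have hX : 0 < τ - 2 * ν := by linarith
  have hY : 0 < 1 - τ - 2 * ν := by linarith
  set X := τ - 2 * ν with hXd
  set Y := 1 - τ - 2 * ν with hYd
  set p := Real.sqrt X with hp
  set q := Real.sqrt Y with hq
  have hp0 : 0 < p := Real.sqrt_pos.2 hX
  have hq0 : 0 < q := Real.sqrt_pos.2 hY
  have hpp : p * p = X := Real.mul_self_sqrt hX.le
  have hqq : q * q = Y := Real.mul_self_sqrt hY.le
  set h := 1 / 2 - δ with hh
  have hh0 : 0 < h := by linarith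
  have hpq : h < p * q := by
    have h1 : h ^ 2 < (p * q) ^ 2 := by
      calc h ^ 2 < X * Y := hcond
        _ = (p * q) ^ 2 := by rw [← hpp, ← hqq]; ring
    exact lt_of_pow_lt_pow_left₀ 2 (by positivity) h1
  set α := (h + p * q) / 2 with hα
  have hα1 : h < α := by linarith
  have hα2 : α < p * q := by linarith
  have hα0 : 0 < α := by linarith
  set ρ := p / q with hρ
  have hρ0 : 0 < ρ := by positivity
  have hYρ : Y * ρ = p * q := by rw [hρ, ← hqq]; field_simp
  have hαρ : α * ρ < X := by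
    have : (p * q) * ρ = X := by rw [hρ, ← hpp]; field_simp
    rw [← this]
    exact mul_lt_mul_of_pos_right hα2 hρ0
  set g := α - h with hg
  have hg0 : 0 < g := by linarith
  obtain ⟨L, hL⟩ := exists_nat_gt (2 * α / g + 1)
  have hLR : (1 : ℝ) < L := by
    have : 0 < 2 * α / g := by positivity
    linarith
  have hL1 : 1 ≤ L := by
    have : (1 : ℝ) ≤ L := hLR.le
    exact_mod_cast this
  have hLg : 2 * α * (1 / L) ≤ g := by
    have h1 : 2 * α / g ≤ L := by linarith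
    rw [div_le_iff₀ hg0] at h1
    rw [mul_one_div, div_le_iff₀ (by linarith)]
    linarith
  have hτ0 : 0 < τ := by linarith
  have hν1 : ν < 1 / 4 := by linarith
  have hl2 : 0 < Real.log 2 := Real.log_pos (by norm_num)
  refine ⟨2 * α * (1 - 1 / L), ?_, ?_⟩
  · rw [hg] at hLg
    rw [hh] at hLg
    linarith
  filter_upwards [eventually_lin (a := ν) (b := 1) hν,
    eventually_lin (a := X) (b := 2 * ν + L + 1) hX,
    eventually_lin (a := Y) (b := 2 * ν) hY,
    eventually_lin (a := Y * ρ - α) (b := 2 * ν * ρ) (by linarith),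
    eventually_lin (a := X - α * ρ) (b := L + 2 * ν) (by linarith),
    eventually_ge_atTop 1,
    eventually_log (c := (1 - ν) / ν * (4 / 2)) (ε := κ * Real.log 2 -
      (Real.binEntropy τ - Real.binEntropy ν)) (by
        have : 0 < 1 - ν := by linarith
        positivity) (by linarith)] with n e1 e2 e3 e4 e5 e6 e7
  have hnR : (1 : ℝ) ≤ n := by exact_mod_cast e6
  set K := ⌊((n : ℝ) + 1) * ν⌋₊ with hK
  set T := ⌊τ * (n : ℝ)⌋₊ with hT
  have hK1 : (K : ℝ) ≤ (n + 1) * ν := Nat.floor_le (by positivity)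
  have hK2 : ((n : ℝ) + 1) * ν < K + 1 := Nat.lt_floor_add_one _
  have hT1 : (T : ℝ) ≤ τ * n := Nat.floor_le (by positivity)
  have hT2 : τ * (n : ℝ) < T + 1 := Nat.lt_floor_add_one _
  have hKpos : 1 ≤ K := by
    rw [hK, Nat.le_floor_iff (by positivity)]
    push_cast
    linarith
  have hX2 : 2 * ν + L + 1 ≤ (τ - 2 * ν) * n := e2
  have hY2 : 2 * ν ≤ (1 - τ - 2 * ν) * n := e3
  have hJK : 2 * K + L ≤ T := by
    have : (2 : ℝ) * K + L ≤ T := by linarith
    exact_mod_cast this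
  have hTn : T + 2 * K ≤ n := by
    have : (T : ℝ) + 2 * K ≤ n := by linarith
    exact_mod_cast this
  obtain ⟨k, hk⟩ : ∃ k, K = k + 1 := ⟨K - 1, by omega⟩
  obtain ⟨G, Tt, D, hcls, hTD⟩ := kernel_gen n k T L (ρ := ρ) (A := α * n)
    (lam := 2 * α * (1 - 1 / L) * n) hρ0 hL1 (by omega) (by omega) (by omega)
    (by positivity)
    (by
      rw [← hk]
      have h1 : (Y * n - 2 * ν) * ρ ≤ ((n : ℝ) - 2 * K - T) * ρ := by
        apply mul_le_mul_of_nonneg_right _ hρ0.le
        rw [hYd]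
        linarith
      linarith)
    (by
      rw [← hk]
      have h1 : X * n - 2 * ν - L ≤ (T : ℝ) + 1 - L - 2 * K := by
        rw [hXd]
        linarith
      linarith)
    (by ring)
  refine ⟨G, Tt, D, hcls, ?_⟩
  rw [← hk] at hTD
  have hKn : K ≤ n := by omega
  have hTn' : T ≤ n := by omega
  have b1 := choose_lower_real n K hν (by linarith) hK1 hK2.le hKn
  have b2 := sum_upper_real n (2 * K) T hτ0 hτ hTn'
  have hν1' : 0 < 1 - ν := by linarith
  have hτ1' : 0 < 1 - τ := by linarith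
  have hD0 := hcls.pos
  have hTt : 0 ≤ Tt := by
    have := hcls.nonneg (fun _ => true) (fun _ => true)
    rwa [hcls.diag] at this
  rcases hTt.eq_or_lt with h0 | hpos
  · rw [← h0]
    positivity
  have c1 : (Tt / D) * (τ ^ T * (1 - τ) ^ (n - T)) ≤
      (4 / 2) * (n + 1) * (ν ^ K * (1 - ν) ^ (n - K)) := by
    set S := ∑ j ∈ Icc (2 * K) T, (n.choose j : ℝ) with hS
    have q0 : (Tt / D) * n.choose K ≤ 2 * S := by
      rw [div_mul_eq_mul_div, div_le_iff₀ hD0]
      exact hTD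
    have q1 : (Tt / D) ≤ ((n : ℝ) + 1) * (ν ^ K * (1 - ν) ^ (n - K)) *
        ((Tt / D) * n.choose K) := by
      calc (Tt / D) = (Tt / D) * 1 := by ring
        _ ≤ (Tt / D) * (((n : ℝ) + 1) * (n.choose K * (ν ^ K * (1 - ν) ^ (n - K)))) :=
            mul_le_mul_of_nonneg_left b1 (by positivity)
        _ = _ := by ring
    have q2 : ((n : ℝ) + 1) * (ν ^ K * (1 - ν) ^ (n - K)) * ((Tt / D) * n.choose K) ≤
        ((n : ℝ) + 1) * (ν ^ K * (1 - ν) ^ (n - K)) * (2 * S) :=
      mul_le_mul_of_nonneg_left q0 (by positivity)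
    calc (Tt / D) * (τ ^ T * (1 - τ) ^ (n - T))
        ≤ (((n : ℝ) + 1) * (ν ^ K * (1 - ν) ^ (n - K)) * (2 * S)) *
          (τ ^ T * (1 - τ) ^ (n - T)) :=
          mul_le_mul_of_nonneg_right (q1.trans q2) (by positivity)
      _ = (2 * (n + 1) * (ν ^ K * (1 - ν) ^ (n - K))) * (S * (τ ^ T * (1 - τ) ^ (n - T))) := by
          ring
      _ ≤ (2 * (n + 1) * (ν ^ K * (1 - ν) ^ (n - K))) * 1 :=
          mul_le_mul_of_nonneg_left b2 (by positivity)
      _ = _ := by ring
  have c2 := log_step hν hν1 hτ0 hτ (by norm_num : (0 : ℝ) < 2) hKn hTn' hT1 hK2.le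
    (div_pos hpos hD0) c1 e7
  rwa [div_le_iff₀ hD0] at c2

end Pool.Agent.Helper47.BK
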