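import Pool.Agent.Helper47.BK.Asy

/-!
Codes for weighted Hamming distances (vertices of rectangular boxes).
-/

set_option autoImplicit false

open Finset Filter

namespace Pool.Agent.Helper47.BK

open Pool.Agent.Helper23.KL Pool.Agent.Helper47.CK

lemma PD.diag_ge {U : Type} {g : U → U → ℝ} {D : ℝ} (h : PD g D) (u : U) : D ≤ g u u := by
  obtain ⟨Ω, _, F, X, Δ, hF, hX, hg, hD⟩ := h
  rw [hg]
  calc D ≤ ∑ ω ∈ Δ, F ω := hD
    _ = ∑ ω ∈ Δ, F ω * (X ω u * X ω u) := by
        refine sum_congr rfl fun ω hω => ?_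
        rw [hX ω hω u]; ring
    _ ≤ _ := sum_le_sum_of_subset_of_nonneg (subset_univ _) fun ω _ _ =>
        mul_nonneg (hF ω) (mul_self_nonneg _)

lemma Cls.D_le {U : Type} {t g : U → U → ℝ} {lam T W D : ℝ} (h : Cls t g lam T W D) (u : U) :
    D ≤ T := by
  rw [← h.diag u]
  exact h.pd.diag_ge u

lemma Cls.lam_le {U : Type} {t g : U → U → ℝ} {lam T W D : ℝ} (h : Cls t g lam T W D) (u : U) :
    lam ≤ W := by
  have h1 := h.shift.diag_ge u
  beta_reduce at h1
  rw [h.diag, h.diagt] at h1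
  have h2 : 0 < T := h.pos.trans_le (h.D_le u)
  by_contra hc
  push Not at hc
  have : (W - lam) * T < 0 := mul_neg_of_neg_of_pos (by linarith) h2
  linarith

lemma ham_sum {n : ℕ} (u v : Fin n → Bool) :
    (n : ℝ) - 2 * (hammingDist u v : ℝ) = ∑ i, sg (u i) * sg (v i) := by
  have h : ∀ i ∈ (univ : Finset (Fin n)),
      sg (u i) * sg (v i) = 1 - 2 * (if u i ≠ v i then (1 : ℝ) else 0) := by
    intro i _
    cases hu : u i <;> cases hv : v i <;> norm_num [sg]
  rw [sum_congr rfl h, sum_sub_distrib, ← mul_sum, ← sum_filter]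
  simp [hammingDist]

/-- the kernels of all classes -/
lemma cls_class {n N0 : ℕ} {s₁ κ' a : ℝ} (hs : s₁ ≤ 1) (hκ' : 0 ≤ κ') (ha : 0 ≤ a)
    (hker : ∀ m ≥ N0, ∃ (g : (Fin m → Bool) → (Fin m → Bool) → ℝ) (Tt D : ℝ),
        Cls (fun u v : Fin m → Bool => (m : ℝ) - 2 * (hammingDist u v : ℝ)) g (s₁ * m) Tt m D ∧
        Tt ≤ 2 ^ (κ' * m) * D)
    (I : Finset (Fin n)) :
    ∃ (g : (Fin n → Bool) → (Fin n → Bool) → ℝ) (lam Tt D : ℝ),
      Cls (fun u v => ∑ i ∈ I, a * (sg (u i) * sg (v i))) g lam Tt (a * I.card) D ∧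
      s₁ * (a * I.card) ≤ lam ∧ Tt ≤ (2 ^ (κ' * I.card) * 2 ^ (N0 : ℝ)) * D := by
  classical
  rcases le_or_gt N0 I.card with h | h
  · obtain ⟨g, Tt, D, hcls, hT⟩ := hker I.card h
    let e : Fin I.card ≃ I := I.equivFin.symm
    let f : (Fin n → Bool) → (Fin I.card → Bool) := fun u j => u (e j)
    have h1 := (hcls.comap f).scale ha
    refine ⟨fun u v => g (f u) (f v), a * (s₁ * I.card), Tt, D, ?_, ?_, ?_⟩
    · have h2 : (fun u v : Fin n → Bool => ∑ i ∈ I, a * (sg (u i) * sg (v i))) =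
          fun u v => a * ((I.card : ℝ) - 2 * (hammingDist (f u) (f v) : ℝ)) := by
        funext u v
        rw [ham_sum, ← mul_sum]
        congr 1
        rw [← Finset.sum_coe_sort I]
        exact (Equiv.sum_comp e (fun i : I => sg (u i) * sg (v i))).symm
      rw [h2]
      exact h1
    · exact le_of_eq (by ring)
    · have h3 := hcls.pos
      have h4 : (1 : ℝ) ≤ 2 ^ (N0 : ℝ) := Real.one_le_rpow (by norm_num) (Nat.cast_nonneg _)
      calc Tt ≤ 2 ^ (κ' * I.card) * 1 * D := by rw [mul_one]; exact hT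
        _ ≤ _ := by gcongr
  · have h1 := brute I (fun _ : Fin n => a)
    have h2 : ∑ i ∈ I, (fun _ : Fin n => a) i = a * I.card := by
      rw [sum_const, nsmul_eq_mul]; ring
    rw [h2] at h1
    refine ⟨_, _, _, _, h1, ?_, ?_⟩
    · have : 0 ≤ a * I.card := by positivity
      nlinarith
    · rw [mul_one]
      have h4 : (1 : ℝ) ≤ 2 ^ (κ' * I.card) := Real.one_le_rpow (by norm_num) (by positivity)
      have h5 : (2 : ℝ) ^ I.card ≤ 2 ^ (N0 : ℝ) := by
        rw [← Real.rpow_natCast]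
        apply Real.rpow_le_rpow_of_exponent_le (by norm_num)
        exact_mod_cast h.le
      calc (2 : ℝ) ^ I.card ≤ 2 ^ (N0 : ℝ) := h5
        _ = 1 * 2 ^ (N0 : ℝ) := by ring
        _ ≤ _ := by gcongr

/-- the bound with explicit constants -/
lemma box_bound {n N0 M : ℕ} {s₁ κ' δ ε K : ℝ} (hs0 : 0 ≤ s₁) (hs : s₁ ≤ 1) (hκ' : 0 ≤ κ')
    (hε : 0 < ε) (hK : 0 < K) (hδ : δ ≤ 1 / 2) (hMK : K / ε ≤ M)
    (hgap : ε ≤ 2 * δ - (1 - s₁) * (1 + ε)) (hn : 1 ≤ n)
    (hker : ∀ m ≥ N0, ∃ (g : (Fin m → Bool) → (Fin m → Bool) → ℝ) (Tt D : ℝ),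
        Cls (fun u v : Fin m → Bool => (m : ℝ) - 2 * (hammingDist u v : ℝ)) g (s₁ * m) Tt m D ∧
        Tt ≤ 2 ^ (κ' * m) * D)
    (w : Fin n → ℝ) (hw : ∀ i, 0 ≤ w i) (hw1 : ∑ i, w i = 1) (C : Finset (Fin n → Bool))
    (hC : ∀ u ∈ C, ∀ v ∈ C, u ≠ v → δ ≤ ∑ i with u i ≠ v i, w i) :
    ε * (C.card : ℝ) ≤ 2 ^ (κ' * n + n / K + N0 * (M + 1)) := by
  classical
  rcases C.eq_empty_or_nonempty with h0 | hne
  · subst h0
    simp only [card_empty, Nat.cast_zero, mul_zero]
    positivity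
  have hnR : (1 : ℝ) ≤ n := by exact_mod_cast hn
  have hn0 : (0 : ℝ) < n := by linarith
  -- classes
  set big : Finset (Fin n) := univ.filter (fun i => K / n < w i) with hbig
  set lv : Fin n → ℕ := fun i => ⌈w i * n / ε⌉₊ with hlv
  set I : Option (Fin (M + 1)) → Finset (Fin n) := fun o =>
    match o with
    | none => big
    | some l => univ.filter (fun i => ¬ K / n < w i ∧ lv i = l) with hI
  set wt : Fin n → ℝ := fun i => if K / n < w i then w i else (lv i : ℝ) * (ε / n) with hwt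
  have hwt0 : ∀ i, 0 ≤ wt i := by
    intro i
    rw [hwt]
    dsimp only
    split_ifs
    · exact hw i
    · positivity
  have hwt1 : ∀ i, w i ≤ wt i := by
    intro i
    rw [hwt]
    dsimp only
    split_ifs
    · exact le_rfl
    · have h1 : w i * n / ε ≤ (lv i : ℝ) := Nat.le_ceil _
      rw [div_le_iff₀ hε] at h1
      rw [← mul_div_assoc, le_div_iff₀ hn0]
      exact h1
  have hwt2 : ∀ i, wt i ≤ w i + ε / n := by
    intro i
    rw [hwt]
    dsimp only
    split_ifs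
    · have : 0 ≤ ε / n := by positivity
      linarith
    · have h1 : (lv i : ℝ) < w i * n / ε + 1 := Nat.ceil_lt_add_one (by
        have := hw i
        positivity)
      have h2 : (lv i : ℝ) * (ε / n) ≤ (w i * n / ε + 1) * (ε / n) :=
        mul_le_mul_of_nonneg_right h1.le (by positivity)
      refine h2.trans (le_of_eq ?_)
      field_simp
  have hlvM : ∀ i, ¬ K / n < w i → lv i < M + 1 := by
    intro i hi
    push Not at hi
    rw [Nat.lt_add_one_iff, hlv]
    dsimp only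
    rw [Nat.ceil_le]
    refine le_trans ?_ hMK
    rw [le_div_iff₀ hn0] at hi
    gcongr
  -- sums over the classes
  have hsplit : ∀ φ : Fin n → ℝ, ∑ o, ∑ i ∈ I o, φ i = ∑ i, φ i := by
    intro φ
    rw [Fintype.sum_option]
    have e1 : ∑ i, φ i = ∑ i ∈ big, φ i + ∑ i ∈ univ.filter (fun i => ¬ K / n < w i), φ i :=
      (sum_filter_add_sum_filter_not univ _ _).symm
    rw [e1]
    congr 1
    have e2 : ∀ l : Fin (M + 1), I (some l) =
        (univ.filter (fun i => ¬ K / n < w i)).filter (fun i => lv i = l) := by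
      intro l
      rw [filter_filter]
    rw [sum_congr rfl fun l _ => by rw [e2 l]]
    have e3 : ∀ i ∈ univ.filter (fun i => ¬ K / n < w i), lv i ∈ range (M + 1) := by
      intro i hi
      rw [mem_range]
      exact hlvM i (mem_filter.1 hi).2
    rw [← sum_fiberwise_of_maps_to e3, ← Fin.sum_univ_eq_sum_range (fun l => ∑ i ∈ (univ.filter (fun i => ¬ K / n < w i)).filter (fun i => lv i = l), φ i)]
  -- the kernels
  have hcls : ∀ o, ∃ (g : (Fin n → Bool) → (Fin n → Bool) → ℝ) (lam Tt D : ℝ),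
      Cls (fun u v => ∑ i ∈ I o, wt i * (sg (u i) * sg (v i))) g lam Tt (∑ i ∈ I o, wt i) D ∧
      s₁ * (∑ i ∈ I o, wt i) ≤ lam ∧
      Tt ≤ (2 ^ (κ' * (I o).card) * 2 ^ (if o = none then (big.card : ℝ) else N0)) * D := by
    intro o
    rcases o with _ | l
    · refine ⟨_, _, _, _, brute big wt, ?_, ?_⟩
      · have : 0 ≤ ∑ i ∈ big, wt i := sum_nonneg fun i _ => hwt0 i
        change s₁ * ∑ i ∈ big, wt i ≤ _
        nlinarith
      · rw [if_pos rfl, mul_one, Real.rpow_natCast]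
        have h4 : (1 : ℝ) ≤ 2 ^ (κ' * (I none).card) :=
          Real.one_le_rpow (by norm_num) (by positivity)
        calc (2 : ℝ) ^ big.card = 1 * 2 ^ big.card := by ring
          _ ≤ _ := by gcongr
    · have hl : ∀ i ∈ I (some l), wt i = (l : ℝ) * (ε / n) := by
        intro i hi
        have hi' := (mem_filter.1 hi).2
        rw [hwt]
        dsimp only
        rw [if_neg hi'.1, hi'.2]
      obtain ⟨g, lam, Tt, D, h1, h2, h3⟩ := cls_class (n := n) (N0 := N0) (a := (l : ℝ) * (ε / n))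
        hs hκ' (by positivity) hker (I (some l))
      have e1 : ∑ i ∈ I (some l), wt i = (l : ℝ) * (ε / n) * (I (some l)).card := by
        rw [sum_congr rfl hl, sum_const, nsmul_eq_mul]; ring
      refine ⟨g, lam, Tt, D, ?_, ?_, ?_⟩
      · rw [e1]
        have e2 : (fun u v : Fin n → Bool => ∑ i ∈ I (some l), wt i * (sg (u i) * sg (v i))) =
            fun u v => ∑ i ∈ I (some l), (l : ℝ) * (ε / n) * (sg (u i) * sg (v i)) := by
          funext u v
          exact sum_congr rfl fun i hi => by rw [hl i hi]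
        rw [e2]
        exact h1
      · rw [e1]; exact h2
      · rw [if_neg (by simp)]
        exact h3
  choose g lam Tt D hc1 hc2 hc3 using hcls
  set Wt : ℝ := ∑ i, wt i with hWt
  have hWt1 : Wt ≤ 1 + ε := by
    calc Wt ≤ ∑ i, (w i + ε / n) := sum_le_sum fun i _ => hwt2 i
      _ = 1 + ε := by
          rw [sum_add_distrib, hw1, sum_const, card_univ, Fintype.card_fin, nsmul_eq_mul,
            mul_div_cancel₀ _ hn0.ne']
  have hW : ∑ o, ∑ i ∈ I o, wt i = Wt := hsplit wt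
  have hlam : s₁ * Wt ≤ ∑ o, lam o := by
    rw [← hW, mul_sum]
    exact sum_le_sum fun o _ => hc2 o
  have hgap2 : ε ≤ ∑ o, lam o - (Wt - 2 * δ) := by
    have : (1 - s₁) * Wt ≤ (1 - s₁) * (1 + ε) := mul_le_mul_of_nonneg_left hWt1 (by linarith)
    linarith
  have hcode := code_of_classes hc1 (S := Wt - 2 * δ) (by linarith) C hne (by
    intro u hu v hv huv
    rw [hsplit (fun i => wt i * (sg (u i) * sg (v i)))]
    have h1 : ∀ i ∈ (univ : Finset (Fin n)),
        wt i * (sg (u i) * sg (v i)) = wt i - 2 * (if u i ≠ v i then wt i else 0) := by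
      intro i _
      cases hu' : u i <;> cases hv' : v i <;> simp [sg] <;> ring
    rw [sum_congr rfl h1, sum_sub_distrib, ← mul_sum, ← sum_filter]
    have h2 : ∑ i with u i ≠ v i, w i ≤ ∑ i with u i ≠ v i, wt i :=
      sum_le_sum fun i _ => hwt1 i
    have h3 := hC u hu v hv huv
    linarith)
  rw [hW] at hcode
  have hD0 : ∀ o, 0 < D o := fun o => (hc1 o).pos
  have hPD : 0 < ∏ o, D o := prod_pos fun o _ => hD0 o
  have hPT0 : 0 ≤ ∏ o, Tt o := prod_nonneg fun o _ =>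
    (hD0 o).le.trans ((hc1 o).D_le (fun _ => true))
  have hbigc : (big.card : ℝ) ≤ n / K := by
    have h1 : (big.card : ℝ) * (K / n) ≤ 1 := by
      calc (big.card : ℝ) * (K / n) = ∑ i ∈ big, K / n := by rw [sum_const, nsmul_eq_mul]
        _ ≤ ∑ i ∈ big, w i := sum_le_sum fun i hi => (mem_filter.1 hi).2.le
        _ ≤ ∑ i, w i := sum_le_sum_of_subset_of_nonneg (subset_univ _) fun i _ _ => hw i
        _ = 1 := hw1
    rw [← mul_div_assoc, div_le_one hn0] at h1
    rw [le_div_iff₀ hK]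
    exact h1
  have hPT : ∏ o, Tt o ≤ 2 ^ (κ' * n + n / K + N0 * (M + 1)) * ∏ o, D o := by
    have h1 : ∏ o, Tt o ≤ ∏ o : Option (Fin (M + 1)),
        (2 ^ (κ' * (I o).card) * 2 ^ (if o = none then (big.card : ℝ) else N0)) * D o :=
      prod_le_prod (fun o _ => (hD0 o).le.trans ((hc1 o).D_le (fun _ => true)))
        fun o _ => hc3 o
    refine h1.trans ?_
    rw [prod_mul_distrib, prod_mul_distrib]
    refine mul_le_mul_of_nonneg_right ?_ hPD.le
    rw [← Real.rpow_sum_of_pos (by norm_num), ← Real.rpow_sum_of_pos (by norm_num),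
      ← Real.rpow_add (by norm_num)]
    apply Real.rpow_le_rpow_of_exponent_le (by norm_num)
    have h2 : ∑ o, κ' * ((I o).card : ℝ) = κ' * n := by
      rw [← mul_sum]
      congr 1
      have := hsplit (fun _ => 1)
      simpa using this
    have h3 : ∑ o : Option (Fin (M + 1)), (if o = none then (big.card : ℝ) else N0) =
        big.card + (M + 1) * N0 := by
      rw [Fintype.sum_option]
      simp
    rw [h2, h3]
    linarith
  have h5 : ε * (∏ o, D o) * (C.card : ℝ) ≤ 2 ^ (κ' * n + n / K + N0 * (M + 1)) * ∏ o, D o := by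
    calc ε * (∏ o, D o) * (C.card : ℝ)
        ≤ (∑ o, lam o - (Wt - 2 * δ)) * (∏ o, D o) * (C.card : ℝ) := by gcongr
      _ ≤ (Wt - (Wt - 2 * δ)) * ∏ o, Tt o := hcode
      _ ≤ 1 * ∏ o, Tt o := by
          apply mul_le_mul_of_nonneg_right _ hPT0
          linarith
      _ ≤ _ := by rw [one_mul]; exact hPT
  refine le_of_mul_le_mul_right ?_ hPD
  calc ε * (C.card : ℝ) * ∏ o, D o = ε * (∏ o, D o) * (C.card : ℝ) := by ring
    _ ≤ _ := h5

/-- **the exponent for boxes** -/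
theorem box_codes {δ ν τ κ : ℝ} (hδ : δ < 1 / 2) (hν : 0 < ν) (hντ : 2 * ν < τ)
    (hτ : τ ≤ 1 / 2) (hcond : (1 / 2 - δ) ^ 2 < (τ - 2 * ν) * (1 - τ - 2 * ν))
    (hκ : Real.binEntropy τ - Real.binEntropy ν < κ * Real.log 2) :
    ∀ᶠ n : ℕ in atTop, ∀ w : Fin n → ℝ, (∀ i, 0 ≤ w i) → ∑ i, w i = 1 →
      ∀ C : Finset (Fin n → Bool),
        (∀ u ∈ C, ∀ v ∈ C, u ≠ v → δ ≤ ∑ i with u i ≠ v i, w i) →
          (C.card : ℝ) ≤ 2 ^ (κ * n) := by
  have hl2 : 0 < Real.log 2 := Real.log_pos (by norm_num)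
  obtain ⟨κ₁, hκ1, hκ2⟩ := exists_between hκ
  set κ' := κ₁ / Real.log 2 with hκ'
  have hκ3 : κ' * Real.log 2 = κ₁ := div_mul_cancel₀ _ hl2.ne'
  have hκ4 : κ' < κ := by
    rw [hκ', div_lt_iff₀ hl2]
    exact hκ2
  obtain ⟨s₁, hs1, hev⟩ := kernel_asy (κ := κ') hδ hν hντ hτ hcond (by rw [hκ3]; exact hκ1)
  rw [eventually_atTop] at hev
  obtain ⟨N0, hN0⟩ := hev
  -- consequences
  obtain ⟨g, Tt, D, hcls, hTD⟩ := hN0 (N0 + 1) (by omega)
  have hN1 : (0 : ℝ) < ((N0 + 1 : ℕ) : ℝ) := by positivity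
  have hs : s₁ ≤ 1 := by
    have h1 := hcls.lam_le (fun _ => true)
    by_contra hc
    push Not at hc
    nlinarith
  have hκ0 : 0 ≤ κ' := by
    by_contra hc
    push Not at hc
    have h1 := hcls.D_le (fun _ => true)
    have h2 : (2 : ℝ) ^ (κ' * ((N0 + 1 : ℕ) : ℝ)) < 1 :=
      Real.rpow_lt_one_of_one_lt_of_neg (by norm_num) (mul_neg_of_neg_of_pos hc hN1)
    have h3 := mul_lt_mul_of_pos_right h2 hcls.pos
    linarith
  have hs0 : 0 ≤ s₁ := by linarith
  set ε := (2 * δ - 1 + s₁) / 2 with hε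
  have hε0 : 0 < ε := by linarith
  set K := 2 / (κ - κ') with hK
  have hK0 : 0 < K := by
    apply div_pos (by norm_num); linarith
  set M := ⌈K / ε⌉₊ with hM
  have hlin : ∀ᶠ n : ℕ in atTop, Real.logb 2 (1 / ε) + N0 * (M + 1) ≤ (κ - κ') / 2 * n :=
    eventually_lin (by linarith)
  filter_upwards [hlin, eventually_ge_atTop 1] with n hn hn1 w hw hw1 C hC
  have h1 := box_bound (M := M) hs0 hs hκ0 hε0 hK0 hδ.le (Nat.le_ceil _) (by
    have h2 : (1 - s₁) * (1 + ε) ≤ (1 - s₁) + ε := by nlinarith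
    linarith) hn1 hN0 w hw hw1 C hC
  have h2 : (C.card : ℝ) ≤ 2 ^ (κ' * n + n / K + N0 * (M + 1)) * (1 / ε) := by
    rw [mul_one_div, le_div_iff₀ hε0]
    linarith
  refine h2.trans ?_
  have h3 : (1 / ε : ℝ) = 2 ^ (Real.logb 2 (1 / ε)) :=
    (Real.rpow_logb (by norm_num) (by norm_num) (by positivity)).symm
  rw [h3, ← Real.rpow_add (by norm_num)]
  apply Real.rpow_le_rpow_of_exponent_le (by norm_num)
  have h4 : (n : ℝ) / K = (κ - κ') / 2 * n := by
    rw [hK]
    have : κ - κ' ≠ 0 := by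
      apply ne_of_gt; linarith
    field_simp
  rw [h4]
  linarith

end Pool.Agent.Helper47.BK
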