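import Mathlib

/-!
Products of kernels with nonnegative coefficients and the resulting bound for codes.
-/

set_option autoImplicit false

open Finset

namespace Pool.Agent.Helper47.BK

variable {U : Type}

/-- `g` is a nonnegative combination of squares of functions, the function `1` having weight at
least `D` -/
def PD (g : U → U → ℝ) (D : ℝ) : Prop :=
  ∃ (Ω : Type) (_ : Fintype Ω) (F : Ω → ℝ) (X : Ω → U → ℝ) (Δ : Finset Ω),
    (∀ ω, 0 ≤ F ω) ∧ (∀ ω ∈ Δ, ∀ u, X ω u = 1) ∧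
      (∀ u v, g u v = ∑ ω, F ω * (X ω u * X ω v)) ∧ D ≤ ∑ ω ∈ Δ, F ω

lemma PD.sum_ge {g : U → U → ℝ} {D : ℝ} (h : PD g D) (C : Finset U) :
    D * (C.card : ℝ) ^ 2 ≤ ∑ u ∈ C, ∑ v ∈ C, g u v := by
  obtain ⟨Ω, _, F, X, Δ, hF, hX, hg, hD⟩ := h
  have h1 : ∑ u ∈ C, ∑ v ∈ C, g u v = ∑ ω, F ω * (∑ u ∈ C, X ω u) ^ 2 := by
    simp_rw [hg]
    calc ∑ u ∈ C, ∑ v ∈ C, ∑ ω, F ω * (X ω u * X ω v)
        = ∑ u ∈ C, ∑ ω, ∑ v ∈ C, F ω * (X ω u * X ω v) :=
          sum_congr rfl fun u _ => sum_comm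
      _ = ∑ ω, ∑ u ∈ C, ∑ v ∈ C, F ω * (X ω u * X ω v) := sum_comm
      _ = _ := by
          refine sum_congr rfl fun ω _ => ?_
          rw [sq, sum_mul_sum, mul_sum]
          refine sum_congr rfl fun u _ => ?_
          rw [mul_sum]
  rw [h1]
  calc D * (C.card : ℝ) ^ 2 ≤ (∑ ω ∈ Δ, F ω) * (C.card : ℝ) ^ 2 :=
        mul_le_mul_of_nonneg_right hD (sq_nonneg _)
    _ = ∑ ω ∈ Δ, F ω * (∑ u ∈ C, X ω u) ^ 2 := by
        rw [sum_mul]
        refine sum_congr rfl fun ω hω => ?_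
        rw [sum_congr rfl fun u _ => hX ω hω u]
        simp
    _ ≤ _ := sum_le_sum_of_subset_of_nonneg (subset_univ _) fun ω _ _ =>
        mul_nonneg (hF ω) (sq_nonneg _)

lemma PD.mul {g g' : U → U → ℝ} {D D' : ℝ} (h : PD g D) (h' : PD g' D') (hD0 : 0 ≤ D)
    (hD0' : 0 ≤ D') : PD (fun u v => g u v * g' u v) (D * D') := by
  obtain ⟨Ω, _, F, X, Δ, hF, hX, hg, hD⟩ := h
  obtain ⟨Ω', _, F', X', Δ', hF', hX', hg', hD'⟩ := h'
  refine ⟨Ω × Ω', inferInstance, fun p => F p.1 * F' p.2, fun p u => X p.1 u * X' p.2 u,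
    Δ ×ˢ Δ', fun p => mul_nonneg (hF _) (hF' _), ?_, ?_, ?_⟩
  · rintro ⟨a, b⟩ hp u
    rw [mem_product] at hp
    simp only
    rw [hX a hp.1, hX' b hp.2, one_mul]
  · intro u v
    simp only
    rw [hg, hg', sum_mul_sum, Fintype.sum_prod_type]
    refine sum_congr rfl fun a _ => sum_congr rfl fun b _ => ?_
    ring
  · rw [sum_product]
    have h1 : ∑ a ∈ Δ, ∑ b ∈ Δ', F a * F' b = (∑ a ∈ Δ, F a) * ∑ b ∈ Δ', F' b := by
      rw [sum_mul_sum]
    rw [h1]
    exact mul_le_mul hD hD' hD0' (hD0.trans hD)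

lemma PD.one : PD (fun _ _ : U => (1 : ℝ)) 1 := by
  refine ⟨Unit, inferInstance, fun _ => 1, fun _ _ => 1, univ, fun _ => zero_le_one,
    fun _ _ _ => rfl, fun _ _ => by simp, by simp⟩

lemma PD.zero : PD (fun _ _ : U => (0 : ℝ)) 0 := by
  refine ⟨Unit, inferInstance, fun _ => 0, fun _ _ => 1, univ, fun _ => le_rfl,
    fun _ _ _ => rfl, fun _ _ => by simp, by simp⟩

lemma PD.congr {g g' : U → U → ℝ} {D D' : ℝ} (h : PD g D) (hg : ∀ u v, g' u v = g u v)
    (hD : D' ≤ D) : PD g' D' := by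
  obtain ⟨Ω, i, F, X, Δ, hF, hX, hg', hD'⟩ := h
  exact ⟨Ω, i, F, X, Δ, hF, hX, fun u v => (hg u v).trans (hg' u v), hD.trans hD'⟩

lemma PD.smul {g : U → U → ℝ} {D a : ℝ} (h : PD g D) (ha : 0 ≤ a) :
    PD (fun u v => a * g u v) (a * D) := by
  obtain ⟨Ω, i, F, X, Δ, hF, hX, hg', hD'⟩ := h
  refine ⟨Ω, i, fun ω => a * F ω, X, Δ, fun ω => mul_nonneg ha (hF ω), hX, fun u v => ?_, ?_⟩
  · simp only
    rw [hg', mul_sum]
    exact sum_congr rfl fun ω _ => by ring
  · rw [← mul_sum]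
    exact mul_le_mul_of_nonneg_left hD' ha

lemma PD.comap {V : Type} {g : U → U → ℝ} {D : ℝ} (h : PD g D) (f : V → U) :
    PD (fun u v => g (f u) (f v)) D := by
  obtain ⟨Ω, i, F, X, Δ, hF, hX, hg', hD'⟩ := h
  exact ⟨Ω, i, F, fun ω u => X ω (f u), Δ, hF, fun ω hω u => hX ω hω (f u),
    fun u v => hg' (f u) (f v), hD'⟩

lemma PD.prod {Λ : Type} (s : Finset Λ) {g : Λ → U → U → ℝ} {D : Λ → ℝ}
    (h : ∀ l ∈ s, PD (g l) (D l)) (hD : ∀ l ∈ s, 0 ≤ D l) :
    PD (fun u v => ∏ l ∈ s, g l u v) (∏ l ∈ s, D l) := by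
  classical
  induction s using Finset.induction_on with
  | empty => simpa using (PD.one (U := U))
  | insert a s ha ih =>
    have h1 := ih (fun l hl => h l (mem_insert_of_mem hl)) (fun l hl => hD l (mem_insert_of_mem hl))
    have h2 := (h a (mem_insert_self _ _)).mul h1 (hD a (mem_insert_self _ _))
      (prod_nonneg fun l hl => hD l (mem_insert_of_mem hl))
    refine h2.congr (fun u v => ?_) (le_of_eq ?_)
    · rw [prod_insert ha]
    · rw [prod_insert ha]

/-- a class kernel: `t` is the inner product of the class -/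
structure Cls (t g : U → U → ℝ) (lam T W D : ℝ) : Prop where
  pd : PD g D
  shift : PD (fun u v => (t u v - lam) * g u v) 0
  nonneg : ∀ u v, 0 ≤ g u v
  diag : ∀ u, g u u = T
  diagt : ∀ u, t u u = W
  pos : 0 < D

/-- **code bound from class kernels** -/
theorem code_of_classes {Λ : Type} [Fintype Λ] [DecidableEq Λ] {t g : Λ → U → U → ℝ}
    {lam T W D : Λ → ℝ} (h : ∀ l, Cls (t l) (g l) (lam l) (T l) (W l) (D l)) {S : ℝ}
    (hS : S ≤ ∑ l, lam l) (C : Finset U) (hne : C.Nonempty)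
    (hC : ∀ u ∈ C, ∀ v ∈ C, u ≠ v → ∑ l, t l u v ≤ S) :
    (∑ l, lam l - S) * (∏ l, D l) * (C.card : ℝ) ≤ (∑ l, W l - S) * ∏ l, T l := by
  classical
  have hG : PD (fun u v => ∏ l, g l u v) (∏ l, D l) :=
    PD.prod univ (fun l _ => (h l).pd) (fun l _ => (h l).pos.le)
  have hH : ∀ l, PD (fun u v => (t l u v - lam l) * ∏ l', g l' u v) 0 := by
    intro l
    have h1 : PD (fun u v => ∏ l' ∈ univ.erase l, g l' u v) (∏ l' ∈ univ.erase l, D l') :=
      PD.prod _ (fun l' _ => (h l').pd) (fun l' _ => (h l').pos.le)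
    have h2 := (h l).shift.mul h1 le_rfl (prod_nonneg fun l' _ => (h l').pos.le)
    refine h2.congr (fun u v => ?_) (by simp)
    rw [← mul_prod_erase univ (fun l' => g l' u v) (mem_univ l)]
    ring
  set Q : ℝ := ∑ u ∈ C, ∑ v ∈ C, (∑ l, t l u v - S) * ∏ l, g l u v with hQ
  have hlow : (∑ l, lam l - S) * ((∏ l, D l) * (C.card : ℝ) ^ 2) ≤ Q := by
    have e1 : Q = (∑ l, ∑ u ∈ C, ∑ v ∈ C, (t l u v - lam l) * ∏ l', g l' u v) +
        (∑ l, lam l - S) * ∑ u ∈ C, ∑ v ∈ C, ∏ l, g l u v := by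
      have e2 : ∑ l, ∑ u ∈ C, ∑ v ∈ C, (t l u v - lam l) * ∏ l', g l' u v =
          ∑ u ∈ C, ∑ v ∈ C, ∑ l, (t l u v - lam l) * ∏ l', g l' u v := by
        rw [sum_comm]
        exact sum_congr rfl fun u _ => sum_comm
      rw [e2, mul_sum, ← sum_add_distrib]
      refine sum_congr rfl fun u _ => ?_
      rw [mul_sum, ← sum_add_distrib]
      refine sum_congr rfl fun v _ => ?_
      rw [← sum_mul, sum_sub_distrib]
      ring
    have e3 : 0 ≤ ∑ l, ∑ u ∈ C, ∑ v ∈ C, (t l u v - lam l) * ∏ l', g l' u v := by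
      refine sum_nonneg fun l _ => ?_
      have := (hH l).sum_ge C
      simpa using this
    have e4 := mul_le_mul_of_nonneg_left (hG.sum_ge C) (sub_nonneg.2 hS)
    rw [e1]
    linarith
  have hup : Q ≤ (C.card : ℝ) * ((∑ l, W l - S) * ∏ l, T l) := by
    have e1 : ∀ u ∈ C, ∑ v ∈ C, (∑ l, t l u v - S) * ∏ l, g l u v ≤
        (∑ l, W l - S) * ∏ l, T l := by
      intro u hu
      have e2 : ∀ v ∈ C, (∑ l, t l u v - S) * ∏ l, g l u v ≤
          if v = u then (∑ l, W l - S) * ∏ l, T l else 0 := by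
        intro v hv
        by_cases huv : v = u
        · subst huv
          rw [if_pos rfl, sum_congr rfl fun l _ => (h l).diagt v,
            prod_congr rfl fun l _ => (h l).diag v]
        · rw [if_neg huv]
          refine mul_nonpos_of_nonpos_of_nonneg ?_ (prod_nonneg fun l _ => (h l).nonneg u v)
          linarith [hC u hu v hv (Ne.symm huv)]
      refine (sum_le_sum e2).trans ?_
      rw [sum_ite_eq' C u, if_pos hu]
    refine (sum_le_sum e1).trans ?_
    rw [sum_const, nsmul_eq_mul]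
  have hc : (0 : ℝ) < C.card := by exact_mod_cast hne.card_pos
  have h3 := hlow.trans hup
  have h4 : (C.card : ℝ) * ((∑ l, lam l - S) * (∏ l, D l) * (C.card : ℝ)) ≤
      (C.card : ℝ) * ((∑ l, W l - S) * ∏ l, T l) := by
    refine le_trans (le_of_eq ?_) h3
    ring
  exact le_of_mul_le_mul_left h4 hc

/-- the trivial kernel of a class: equality of the coordinates of the class -/
lemma Cls.comap {V : Type} {t g : U → U → ℝ} {lam T W D : ℝ} (h : Cls t g lam T W D)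
    (f : V → U) : Cls (fun u v => t (f u) (f v)) (fun u v => g (f u) (f v)) lam T W D where
  pd := h.pd.comap f
  shift := h.shift.comap f
  nonneg := fun u v => h.nonneg _ _
  diag := fun u => h.diag _
  diagt := fun u => h.diagt _
  pos := h.pos

lemma Cls.scale {t g : U → U → ℝ} {lam T W D a : ℝ} (h : Cls t g lam T W D) (ha : 0 ≤ a) :
    Cls (fun u v => a * t u v) g (a * lam) T (a * W) D where
  pd := h.pd
  shift := by
    have := h.shift.smul ha
    refine this.congr (fun u v => ?_) (by simp)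
    ring
  nonneg := h.nonneg
  diag := h.diag
  diagt := fun u => by rw [h.diagt]
  pos := h.pos

end Pool.Agent.Helper47.BK
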