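import Pool.Agent.Helper47.BK.Box

/-!
The two statements about weighted codes.
-/

set_option autoImplicit false

open Finset Filter

namespace Pool.Agent.Helper47.BK

open Pool.Agent.Helper47.CK

/-- **Weighted codes, relative distance `1/4`.** -/
theorem box_quarter : ∀ᶠ n : ℕ in atTop, ∀ w : Fin n → ℝ, (∀ i, 0 ≤ w i) → ∑ i, w i = 1 →
    ∀ C : Finset (Fin n → Bool),
      (∀ u ∈ C, ∀ v ∈ C, u ≠ v → 1 / 4 ≤ ∑ i with u i ≠ v i, w i) →
        (C.card : ℝ) ≤ 2 ^ ((351 / 1000 : ℝ) * n) := by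
  refine box_codes (δ := 1 / 4) (ν := 1 / 354) (τ := 5 / 68) (by norm_num) (by norm_num)
    (by norm_num) (by norm_num) (by norm_num) ?_
  have hl2 : 0 < Real.log 2 := Real.log_pos (by norm_num)
  have l1 := log1
  have l2 := log2
  have e1 : Real.binEntropy (5 / 68) =
      Real.log 68 - (5 / 68) * Real.log 5 - (63 / 68) * Real.log 63 := by
    rw [binE, show (1 : ℝ) - 5 / 68 = 63 / 68 by norm_num, Real.log_div (by norm_num) (by norm_num),
      Real.log_div (by norm_num) (by norm_num)]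
    ring
  have e2 : Real.binEntropy (1 / 354) = Real.log 354 - (353 / 354) * Real.log 353 := by
    rw [binE, show (1 : ℝ) - 1 / 354 = 353 / 354 by norm_num,
      Real.log_div (by norm_num) (by norm_num), Real.log_div (by norm_num) (by norm_num),
      Real.log_one]
    ring
  rw [e1, e2]
  linarith

/-- strict improvement of the first linear programming exponent -/
theorem box_strict {s : ℝ} (hs0 : 0 < s) (hs1 : s < 1) :
    ∃ κ : ℝ, κ * Real.log 2 < Real.binEntropy ((1 - Real.sqrt (1 - s ^ 2)) / 2) ∧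
      ∀ᶠ n : ℕ in atTop, ∀ w : Fin n → ℝ, (∀ i, 0 ≤ w i) → ∑ i, w i = 1 →
        ∀ C : Finset (Fin n → Bool),
          (∀ u ∈ C, ∀ v ∈ C, u ≠ v → (1 - s) / 2 ≤ ∑ i with u i ≠ v i, w i) →
            (C.card : ℝ) ≤ 2 ^ (κ * n) := by
  have hr0 : 0 < 1 - s ^ 2 := by nlinarith
  set r := Real.sqrt (1 - s ^ 2) with hr
  have hrp : 0 < r := Real.sqrt_pos.2 hr0
  have hrr : r ^ 2 = 1 - s ^ 2 := Real.sq_sqrt hr0.le
  have hr1 : r < 1 := by nlinarith
  set t := (1 - r) / 2 with ht
  have ht0 : 0 < t := by linarith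
  have ht1 : t < 1 / 2 := by linarith
  have htt : t * (1 - t) = (s / 2) ^ 2 := by rw [ht]; nlinarith
  have hl2 : 0 < Real.log 2 := Real.log_pos (by norm_num)
  set M := 3 / (1 - 2 * t) with hM
  have h12 : 0 < 1 - 2 * t := by linarith
  have hMt : M * (1 - 2 * t) = 3 := by rw [hM]; exact div_mul_cancel₀ _ h12.ne'
  have hM3 : 3 < M := by
    rw [hM, lt_div_iff₀ (by linarith)]
    nlinarith
  set ν := min (min ((1 / 2 - t) / M) (1 / (M ^ 2)))
    (Real.exp (-(M * (Real.log (1 - t) - Real.log t)))) / 2 with hν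
  have hmin : 0 < min (min ((1 / 2 - t) / M) (1 / (M ^ 2)))
    (Real.exp (-(M * (Real.log (1 - t) - Real.log t)))) := by
    apply lt_min (lt_min _ _) (Real.exp_pos _)
    · apply div_pos <;> linarith
    · positivity
  have hν0 : 0 < ν := by rw [hν]; linarith
  have hν1 : ν < (1 / 2 - t) / M := by
    have := (min_le_left _ _).trans (min_le_left ((1 / 2 - t) / M) (1 / (M ^ 2)))
      (a := min (min ((1 / 2 - t) / M) (1 / (M ^ 2)))
        (Real.exp (-(M * (Real.log (1 - t) - Real.log t)))))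
    rw [hν]; linarith
  have hν2 : ν < 1 / M ^ 2 := by
    have := (min_le_left _ _).trans (min_le_right ((1 / 2 - t) / M) (1 / (M ^ 2)))
      (a := min (min ((1 / 2 - t) / M) (1 / (M ^ 2)))
        (Real.exp (-(M * (Real.log (1 - t) - Real.log t)))))
    rw [hν]; linarith
  have hν3 : ν < Real.exp (-(M * (Real.log (1 - t) - Real.log t))) := by
    have := min_le_right (min ((1 / 2 - t) / M) (1 / (M ^ 2)))
      (Real.exp (-(M * (Real.log (1 - t) - Real.log t))))
    rw [hν]; linarith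
  rw [lt_div_iff₀ (by linarith)] at hν1
  rw [lt_div_iff₀ (by positivity)] at hν2
  have hν3' : Real.log ν < -(M * (Real.log (1 - t) - Real.log t)) := by
    rw [Real.log_lt_iff_lt_exp hν0]
    exact hν3
  set τ := t + M * ν with hτ
  have hent : Real.binEntropy τ - Real.binEntropy ν < Real.binEntropy t := by
    have g1 := gibbs (a := τ) (b := t) (by positivity) (by rw [hτ]; linarith) ht0 (by linarith)
    have g2 := binE ν
    have hlν : Real.log (1 - ν) ≤ 0 := Real.log_nonpos (by nlinarith) (by linarith)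
    have g3 : ν * (M * (Real.log (1 - t) - Real.log t)) < ν * (-Real.log ν) :=
      mul_lt_mul_of_pos_left (by linarith) hν0
    have g4 : 0 ≤ -((1 - ν) * Real.log (1 - ν)) := by
      have : 0 ≤ 1 - ν := by nlinarith
      nlinarith
    have g5 : τ - t = M * ν := by rw [hτ]; ring
    rw [g5] at g1
    rw [g2]
    linarith
  obtain ⟨κ', hκ1, hκ2⟩ := exists_between hent
  have hκ3 : κ' / Real.log 2 * Real.log 2 = κ' := div_mul_cancel₀ _ hl2.ne'
  refine ⟨κ' / Real.log 2, ?_, ?_⟩
  · rw [hκ3]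
    exact hκ2
  · have hντ : 2 * ν < τ := by
      have := mul_lt_mul_of_pos_right hM3 hν0
      rw [hτ]; linarith
    have hτ2 : τ ≤ 1 / 2 := by rw [hτ]; linarith
    have hκ4 : Real.binEntropy τ - Real.binEntropy ν < κ' / Real.log 2 * Real.log 2 := by
      rw [hκ3]
      exact hκ1
    refine box_codes (δ := (1 - s) / 2) (ν := ν) (τ := τ) (by linarith) hν0 hντ hτ2 ?_ hκ4
    have e1 : (1 / 2 - (1 - s) / 2) ^ 2 = t * (1 - t) := by rw [htt]; ring
    rw [e1, hτ]
    have e2 : (t + M * ν - 2 * ν) * (1 - (t + M * ν) - 2 * ν) =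
        t * (1 - t) + ν * (M * (1 - 2 * t) - 2) - (M ^ 2 - 4) * ν ^ 2 := by ring
    rw [e2, hMt]
    have e3 : ν * (M ^ 2 * ν) < ν * 1 := mul_lt_mul_of_pos_left (by linarith) hν0
    have e4 := sq_nonneg ν
    linarith

end Pool.Agent.Helper47.BK
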