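import Pool.Agent.Helper47.BK.Ker
import Pool.Agent.Helper23.KL.Harmonic

/-!
The kernel of one cube (from the files of helper23) and the trivial kernel.
-/

set_option autoImplicit false

open Finset

namespace Pool.Agent.Helper47.BK

open Pool.Agent.Helper23.KL

/-- the trivial kernel on a set `I` of coordinates -/
lemma brute {n : ℕ} (I : Finset (Fin n)) (w : Fin n → ℝ) :
    Cls (fun u v : Fin n → Bool => ∑ i ∈ I, w i * (sg (u i) * sg (v i)))
      (fun u v => ∏ i ∈ I, (1 + sg (u i) * sg (v i))) (∑ i ∈ I, w i) (2 ^ I.card)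
      (∑ i ∈ I, w i) 1 where
  pd := by
    have h := PD.prod (U := Fin n → Bool) I (g := fun i u v => 1 + sg (u i) * sg (v i))
      (D := fun _ => 1) (fun i _ => by
        refine ⟨Bool, inferInstance, fun _ => 1, fun b u => if b then 1 else sg (u i), {true},
          fun _ => zero_le_one, ?_, ?_, by simp⟩
        · intro ω hω u
          rw [mem_singleton] at hω
          simp [hω]
        · intro u v
          simp) (fun _ _ => zero_le_one)
    simpa using h
  shift := by
    refine PD.zero.congr (fun u v => ?_) le_rfl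
    by_cases h : ∀ i ∈ I, u i = v i
    · have h1 : ∑ i ∈ I, w i * (sg (u i) * sg (v i)) = ∑ i ∈ I, w i := by
        refine sum_congr rfl fun i hi => ?_
        rw [h i hi, sg_sq, mul_one]
      rw [h1, sub_self, zero_mul]
    · push Not at h
      obtain ⟨i, hi, hne⟩ := h
      have h1 : 1 + sg (u i) * sg (v i) = 0 := by
        cases hu : u i <;> cases hv : v i <;> simp [sg, hu, hv] at hne ⊢
      rw [prod_eq_zero hi h1, mul_zero]
  nonneg := by
    intro u v
    refine prod_nonneg fun i _ => ?_
    cases u i <;> cases v i <;> norm_num [sg]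
  diag := by
    intro u
    rw [prod_congr rfl fun i _ => by rw [sg_sq]]
    rw [prod_const]
    norm_num
  diagt := by
    intro u
    refine sum_congr rfl fun i _ => ?_
    rw [sg_sq, mul_one]
  pos := one_pos

variable {n : ℕ} {ι : Type} [Fintype ι]

/-- the kernel of helper23 is a class kernel -/
lemma cls_of_Phi (c : ℕ → ℝ) (hc : ∀ j, 0 ≤ c j) (h : ι → Finset (Fin n) → ℝ) {lam : ℝ}
    (hent : ∀ R R', lam * Phi c h R R' ≤ ∑ i, Phi c h (tog i R) R')
    (hpos : 0 < ∑ R, Phi c h R R) :
    Cls (fun u v : Fin n → Bool => (n : ℝ) - 2 * (hammingDist u v : ℝ))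
      (fun u v => ∑ R, ∑ R', Phi c h R R' * ((chi R u * chi R v) * (chi R' u * chi R' v)))
      lam (∑ R, ∑ R', Phi c h R R') n (∑ R, Phi c h R R) where
  pd := by
    classical
    refine ⟨Finset (Fin n) × Finset (Fin n), inferInstance, fun p => Phi c h p.1 p.2,
      fun p u => chi p.1 u * chi p.2 u, univ.filter (fun p => p.1 = p.2),
      fun p => Phi_nonneg c hc h _ _, ?_, ?_, ?_⟩
    · rintro ⟨R, R'⟩ hp u
      rw [mem_filter] at hp
      have : R = R' := hp.2
      subst this
      exact chi_sq R u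
    · intro u v
      rw [Fintype.sum_prod_type]
      refine sum_congr rfl fun R _ => sum_congr rfl fun R' _ => ?_
      ring
    · apply le_of_eq
      rw [sum_filter, Fintype.sum_prod_type]
      refine sum_congr rfl fun R _ => ?_
      simp
  shift := by
    refine ⟨Finset (Fin n) × Finset (Fin n), inferInstance,
      fun p => (∑ i, Phi c h (tog i p.1) p.2) - lam * Phi c h p.1 p.2,
      fun p u => chi p.1 u * chi p.2 u, ∅,
      fun p => sub_nonneg.2 (hent _ _), ?_, ?_, ?_⟩
    · intro ω hω
      exact absurd hω (notMem_empty _)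
    · intro u v
      beta_reduce
      rw [sub_mul, shift_sum, mul_sum, ← sum_sub_distrib, Fintype.sum_prod_type]
      refine sum_congr rfl fun R _ => ?_
      rw [mul_sum, ← sum_sub_distrib]
      refine sum_congr rfl fun R' _ => ?_
      ring
    · simp
  nonneg := by
    intro u v
    rw [sum_Phi_eq_sq c h (fun R => chi R u * chi R v)]
    exact sum_nonneg fun a _ => sum_nonneg fun b _ => sq_nonneg _
  diag := by
    intro u
    refine sum_congr rfl fun R _ => sum_congr rfl fun R' _ => ?_
    rw [chi_sq, chi_sq]; ring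
  diagt := by
    intro u
    rw [hammingDist_self]
    push_cast
    ring
  pos := hpos

/-- **the kernel of the cube** -/
theorem cube_kernel (n k T : ℕ) (c : ℕ → ℝ) (hc : ∀ j, 0 ≤ c j)
    (hsupp : ∀ j, j ∉ Finset.Icc (2 * (k + 1)) T → c j = 0)
    (hpos : ∃ j ∈ Finset.Icc (2 * (k + 1)) T, 0 < c j) (hT : T + (k + 1) ≤ n)
    (hdim : n.choose k < n.choose (k + 1))
    (lam : ℝ)
    (heig : ∀ j ∈ Finset.Icc (2 * (k + 1)) T,
      lam * c j ≤ ((n : ℝ) - 2 * (k + 1 : ℕ) - j) * c (j + 1)
        + ((j : ℝ) - 2 * (k + 1 : ℕ)) * c (j - 1)) :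
    ∃ (g : (Fin n → Bool) → (Fin n → Bool) → ℝ) (Tt D : ℝ),
      Cls (fun u v : Fin n → Bool => (n : ℝ) - 2 * (hammingDist u v : ℝ)) g lam Tt n D ∧
      Tt * ((n.choose (k + 1) : ℝ) - n.choose k) ≤
        (∑ j ∈ Finset.Icc (2 * (k + 1)) T, (n.choose j : ℝ)) * D := by
  classical
  set W := LinearMap.ker (clo n k) with hW
  let b := stdOrthonormalBasis ℝ W
  let g : Fin (Module.finrank ℝ W) → Finset (Fin n) → ℝ := fun a => ext (k + 1) (fun x => (b a : EuclideanSpace ℝ {Q : Finset (Fin n) // Q.card = k + 1}) x)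
  let h : Fin (Module.finrank ℝ W) → Finset (Fin n) → ℝ := fun a => pol (k + 1) (g a)
  have hclosed : ∀ a, Closed k (g a) := by
    intro a Q hQ
    have h1 : clo n k (b a : EuclideanSpace ℝ {Q : Finset (Fin n) // Q.card = k + 1}) = 0 :=
      LinearMap.mem_ker.1 (b a).2
    have h2 := congrFun h1 ⟨Q, hQ⟩
    exact h2
  have hh : ∀ a, Harm (k + 1) (h a) := fun a => harm_pol k (g a) (hclosed a)
  have hbase : ∀ a a', lev (h a) (h a') (k + 1) = if a = a' then 1 else 0 := by
    intro a a'
    have h2 := lev_base k (b a : EuclideanSpace ℝ {Q : Finset (Fin n) // Q.card = k + 1})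
      (b a' : EuclideanSpace ℝ {Q : Finset (Fin n) // Q.card = k + 1})
    have h3 := orthonormal_iff_ite.1 b.orthonormal a a'
    rw [Submodule.coe_inner] at h3
    rw [← h3]
    exact h2
  set s : ℝ := ∑ j ∈ Finset.Icc (2 * (k + 1)) T, c j * rho n (k + 1) j with hs
  have hspos : 0 < s := by
    rw [hs]
    apply Finset.sum_pos'
    · intro j hj
      rw [mem_Icc] at hj
      exact mul_nonneg (hc j) (rho_pos n (k + 1) j (by omega) (by omega)).le
    · obtain ⟨j, hj, hj'⟩ := hpos
      refine ⟨j, hj, ?_⟩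
      rw [mem_Icc] at hj
      exact mul_pos hj' (rho_pos n (k + 1) j (by omega) (by omega))
  have horth : ∀ a a', ∑ R, c R.card * h a R * h a' R = if a = a' then s else 0 := by
    intro a a'
    rw [sum_c_lev c (Finset.Icc (2 * (k + 1)) T) hsupp]
    have h1 : ∀ j ∈ Finset.Icc (2 * (k + 1)) T, c j * lev (h a) (h a') j
        = (c j * rho n (k + 1) j) * (if a = a' then 1 else 0) := by
      intro j hj
      rw [mem_Icc] at hj
      rw [lev_eq (k + 1) _ _ (hh a) (hh a') j (by omega), hbase]
      ring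
    rw [Finset.sum_congr rfl h1, ← Finset.sum_mul, ← hs]
    by_cases haa : a = a' <;> simp [haa]
  set Dm : ℝ := (Module.finrank ℝ W : ℝ) with hDm
  have hDm1 : (n.choose (k + 1) : ℝ) - n.choose k ≤ Dm := finrank_ker_clo n k
  have hdimR : (n.choose k : ℝ) < n.choose (k + 1) := by exact_mod_cast hdim
  have hDm0 : 0 < Dm := by linarith
  have htot : ∑ R, ∑ R', Phi c h R R' = Dm * s ^ 2 := by
    have h1 := sum_Phi_eq_sq c h (fun _ => 1)
    simp only [mul_one] at h1
    rw [h1]
    simp_rw [horth]
    have h2 : ∀ a : Fin (Module.finrank ℝ W), ∑ b, (if a = b then s else 0) ^ 2 = s ^ 2 := by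
      intro a
      rw [Finset.sum_eq_single a]
      · simp
      · intro b _ hb
        simp [Ne.symm hb]
      · intro h; exact absurd (Finset.mem_univ a) h
    rw [Finset.sum_congr rfl fun a _ => h2 a]
    simp [hDm]
  set B : Finset (Finset (Fin n)) := Finset.univ.filter
    (fun R => R.card ∈ Finset.Icc (2 * (k + 1)) T) with hB
  have hBcard : (B.card : ℝ) = ∑ j ∈ Finset.Icc (2 * (k + 1)) T, (n.choose j : ℝ) := by
    have h1 : B.card = ∑ j ∈ Finset.Icc (2 * (k + 1)) T, (B.filter (fun R => R.card = j)).card := by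
      apply Finset.card_eq_sum_card_fiberwise
      intro R hR
      simpa [hB] using hR
    rw [h1]
    push_cast
    refine Finset.sum_congr rfl fun j hj => ?_
    have h2 : B.filter (fun R => R.card = j) = Finset.powersetCard j Finset.univ := by
      ext R
      simp only [hB, Finset.mem_filter, Finset.mem_univ, true_and, Finset.mem_powersetCard,
        Finset.subset_univ]
      constructor
      · exact fun h => h.2
      · intro h; rw [h]; exact ⟨hj, rfl⟩
    rw [h2, Finset.card_powersetCard, Finset.card_univ, Fintype.card_fin]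
  have hCS : (Dm * s) ^ 2 ≤ (B.card : ℝ) * ∑ R, Phi c h R R := by
    have h1 : Dm * s = ∑ R, c R.card * Z h R R := by
      have h2 : ∑ R, c R.card * Z h R R = ∑ a, ∑ R, c R.card * h a R * h a R := by
        rw [Finset.sum_comm]
        refine Finset.sum_congr rfl fun R _ => ?_
        unfold Z
        rw [Finset.mul_sum]
        exact Finset.sum_congr rfl fun a _ => by ring
      rw [h2]
      simp_rw [horth]
      simp [hDm]
    have h3 : ∑ R, c R.card * Z h R R = ∑ R ∈ B, c R.card * Z h R R := by
      symm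
      apply Finset.sum_subset (Finset.subset_univ B)
      intro R _ hR
      have : R.card ∉ Finset.Icc (2 * (k + 1)) T := by
        intro h; exact hR (by simpa [hB] using h)
      rw [hsupp _ this, zero_mul]
    rw [h1, h3]
    have h4 : (∑ R ∈ B, c R.card * Z h R R) ^ 2 ≤ (B.card : ℝ) * ∑ R ∈ B, (c R.card * Z h R R) ^ 2 :=
      sq_sum_le_card_mul_sum_sq
    refine h4.trans ?_
    apply mul_le_mul_of_nonneg_left _ (Nat.cast_nonneg _)
    have h5 : ∀ R ∈ B, (c R.card * Z h R R) ^ 2 = Phi c h R R := by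
      intro R _
      unfold Phi
      ring
    rw [sum_congr rfl h5]
    exact sum_le_sum_of_subset_of_nonneg (subset_univ _) fun R _ _ => Phi_nonneg c hc h R R
  have hent : ∀ R R', lam * Phi c h R R' ≤ ∑ i, Phi c h (tog i R) R' := by
    intro R R'
    by_cases hR : R.card ∈ Finset.Icc (2 * (k + 1)) T
    · refine le_trans ?_ (APhi_ge (k + 1) h hh c hc R R')
      have h1 := heig _ hR
      have h2 := mul_le_mul_of_nonneg_left h1 (mul_nonneg (hc R'.card) (sq_nonneg (Z h R R')))
      calc lam * Phi c h R R' = c R'.card * (Z h R R') ^ 2 * (lam * c R.card) := by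
            unfold Phi; ring
        _ ≤ _ := h2
    · have h0 : Phi c h R R' = 0 := by
        unfold Phi
        rw [hsupp _ hR]; ring
      rw [h0, mul_zero]
      exact Finset.sum_nonneg fun i _ => Phi_nonneg c hc h _ _
  have hD0 : 0 < ∑ R, Phi c h R R := by
    have h1 : 0 < (B.card : ℝ) * ∑ R, Phi c h R R :=
      lt_of_lt_of_le (by positivity) hCS
    rcases (Finset.sum_nonneg fun R (_ : R ∈ univ) => Phi_nonneg c hc h R R).eq_or_lt with h2 | h2
    · rw [← h2, mul_zero] at h1
      exact absurd h1 (lt_irrefl _)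
    · exact h2
  refine ⟨_, _, _, cls_of_Phi c hc h hent hD0, ?_⟩
  rw [htot, ← hBcard]
  calc Dm * s ^ 2 * ((n.choose (k + 1) : ℝ) - n.choose k) ≤ Dm * s ^ 2 * Dm :=
        mul_le_mul_of_nonneg_left hDm1 (by positivity)
    _ = (Dm * s) ^ 2 := by ring
    _ ≤ _ := hCS

end Pool.Agent.Helper47.BK
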